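import Mathlib
import Pool.Agent.Lib.MP_a9f24d_an.Final

/-!
# Bernstein-Markov measures and Vandermonde integrals in several variables

For a regular compact set `K` in `ℂⁿ`, `n ≥ 1`, the transfinite diameter `δ(K)` exists as a limit,
and a finite measure on `K` has the Bernstein-Markov property exactly when its Vandermonde integrals
satisfy `Z_k ^ (1 / (2 l_k)) → δ(K)`.
-/

set_option autoImplicit false

open Filter Topology MeasureTheory MvPolynomial

namespace Pool.Agent.Results.MP_a9f24d_an.VandermondeIntegrals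

/-- The values `log |p(z)| / deg p` whose supremum is the Siciak-Zaharjuta extremal function
`V_K(z)`: here `p` runs over the polynomials of degree at least `1` with `|p| ≤ 1` on `K`
(and `p(z) ≠ 0`: polynomials vanishing at `z` would contribute the value `-∞`). -/
def extremalValues {n : ℕ} (K : Set (Fin n → ℂ)) (z : Fin n → ℂ) : Set ℝ :=
  {t | ∃ p : MvPolynomial (Fin n) ℂ, 1 ≤ p.totalDegree ∧ (∀ x ∈ K, ‖eval x p‖ ≤ 1) ∧
    eval z p ≠ 0 ∧ t = Real.log ‖eval z p‖ / p.totalDegree}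

/-- `K` is regular: its extremal function `V_K` is a (finite) continuous function on `ℂⁿ`. -/
def IsRegular {n : ℕ} (K : Set (Fin n → ℂ)) : Prop :=
  ∃ V : (Fin n → ℂ) → ℝ, Continuous V ∧ ∀ z, IsLUB (extremalValues K z) (V z)

/-- The Bernstein-Markov property: `‖p‖_K ≤ M_k ‖p‖_{L²(ν)}` for all polynomials `p` of degree at
most `k`, with constants such that `limsup M_k ^ (1/k) = 1`. -/
def BernsteinMarkov {n : ℕ} (K : Set (Fin n → ℂ)) (ν : Measure (Fin n → ℂ)) : Prop :=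
  ∃ M : ℕ → ℝ, (∀ k, 0 ≤ M k) ∧
    (∀ k, ∀ p : MvPolynomial (Fin n) ℂ, p.totalDegree ≤ k → ∀ x ∈ K,
      ‖eval x p‖ ≤ M k * √(∫ y, ‖eval y p‖ ^ 2 ∂ν)) ∧
    limsup (fun k : ℕ => M k ^ ((1 : ℝ) / k)) atTop = 1

/-- The exponents of the monomials of degree at most `k` in `n` variables. There are
`N_k = (n+k).choose k` of them. -/
abbrev Exponents (n k : ℕ) := {α : Fin n → Fin (k + 1) // ∑ i, (α i : ℕ) ≤ k}

/-- The Vandermonde determinant `VDM_k(x) = det [e_β(x_α)]` of the monomials of degree at most `k`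
at `N_k` points (rows and columns indexed by the exponents). -/
noncomputable def VDM {n : ℕ} (k : ℕ) (x : Exponents n k → (Fin n → ℂ)) : ℂ :=
  Matrix.det (Matrix.of fun a β : Exponents n k => ∏ i, x a i ^ (β.1 i : ℕ))

/-- `l_k = n k N_k / (n + 1)`, where `N_k = (n+k).choose k`. -/
noncomputable def degreeSum (n k : ℕ) : ℝ := n * k * ((n + k).choose k : ℝ) / (n + 1)

/-- `δ` is the transfinite diameter of `K`: the limit of `(max_{x ∈ K^{N_k}} |VDM_k(x)|)^(1/l_k)`
(the maxima being attained). -/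
def IsTransfiniteDiameter {n : ℕ} (K : Set (Fin n → ℂ)) (δ : ℝ) : Prop :=
  ∃ m : ℕ → ℝ,
    (∀ k, IsGreatest {s | ∃ x : Exponents n k → (Fin n → ℂ), (∀ a, x a ∈ K) ∧ s = ‖VDM k x‖}
      (m k)) ∧
    Tendsto (fun k : ℕ => m k ^ (1 / degreeSum n k)) atTop (𝓝 δ)

/-- The Vandermonde integral `Z_k(ν) = ∫ |VDM_k(x)|² dν(x_1) ... dν(x_{N_k})`. -/
noncomputable def vandermondeIntegral {n : ℕ} (ν : Measure (Fin n → ℂ)) (k : ℕ) : ℝ :=
  ∫ x, ‖VDM k x‖ ^ 2 ∂(Measure.pi fun _ : Exponents n k => ν)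

section aux

open Pool.Agent.La9f24d

lemma bridge_totalDegree {n : ℕ} (i : Fin n) {k : ℕ} (hk : 1 ≤ k) (a b : ℂ) (hb : b ≠ 0) :
    (C a + C b * X i ^ k : MvPolynomial (Fin n) ℂ).totalDegree = k := by
  classical
  apply le_antisymm
  · refine (totalDegree_add _ _).trans (max_le (by simp) ?_)
    refine (totalDegree_mul _ _).trans ?_
    rw [totalDegree_C, zero_add]
    exact (totalDegree_X_pow i k).le
  · have hmem : Finsupp.single i k ∈ (C a + C b * X i ^ k : MvPolynomial (Fin n) ℂ).support := by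
      rw [mem_support_iff, coeff_add, coeff_C, coeff_C_mul, coeff_X_pow]
      have h0 : (0 : Fin n →₀ ℕ) ≠ Finsupp.single i k := by
        intro h
        have := DFunLike.congr_fun h i
        simp at this
        omega
      rw [if_neg h0]
      simpa using hb
    have := le_totalDegree hmem
    simpa using this

/-- every upper bound of the extremal values is nonnegative -/
lemma bridge_nonneg {n : ℕ} (hn : 1 ≤ n) {K : Set (Fin n → ℂ)} (hK : IsCompact K)
    {z : Fin n → ℂ} {W : ℝ} (hW : W ∈ upperBounds (extremalValues K z)) : 0 ≤ W := by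
  let i : Fin n := ⟨0, hn⟩
  obtain ⟨R₀, hR₀⟩ := hK.isBounded.exists_norm_le
  set R : ℝ := max (max R₀ ‖z‖) 1 with hR
  have hR1 : 1 ≤ R := le_max_right _ _
  have hRpos : 0 < R := lt_of_lt_of_le one_pos hR1
  have hRK : ∀ x ∈ K, ‖x i‖ ≤ R := fun x hx =>
    (norm_le_pi_norm x i).trans ((hR₀ x hx).trans ((le_max_left _ _).trans (le_max_left _ _)))
  have hRz : ‖z i‖ ≤ R :=
    (norm_le_pi_norm z i).trans ((le_max_right _ _).trans (le_max_left _ _))
  -- the comparison polynomials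
  have hval : ∀ (k : ℕ) (x : Fin n → ℂ),
      eval x (C (3 / 4 : ℂ) + C ((1 / 4 : ℂ) * ((R : ℂ)⁻¹) ^ k) * X i ^ k) =
        3 / 4 + 1 / 4 * ((R : ℂ)⁻¹ * x i) ^ k := by
    intro k x
    simp only [map_add, map_mul, eval_C, map_pow, eval_X]
    ring
  have hsmall : ∀ (k : ℕ) (x : Fin n → ℂ), ‖x i‖ ≤ R → ‖((R : ℂ)⁻¹ * x i) ^ k‖ ≤ 1 := by
    intro k x hx
    rw [norm_pow]
    refine pow_le_one₀ (norm_nonneg _) ?_
    rw [norm_mul, norm_inv, Complex.norm_real, Real.norm_of_nonneg hRpos.le,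
      inv_mul_le_iff₀ hRpos, mul_one]
    exact hx
  have key : ∀ k : ℕ, 1 ≤ k → -Real.log 2 ≤ k * W := by
    intro k hk
    have hk' : (0 : ℝ) < k := by exact_mod_cast hk
    have hdeg := bridge_totalDegree i hk (3 / 4 : ℂ) ((1 / 4 : ℂ) * ((R : ℂ)⁻¹) ^ k) (by
      have : (R : ℂ) ≠ 0 := by exact_mod_cast hRpos.ne'
      exact mul_ne_zero (by norm_num) (pow_ne_zero _ (inv_ne_zero this)))
    have hlow : 1 / 2 ≤ ‖(3 / 4 : ℂ) + 1 / 4 * ((R : ℂ)⁻¹ * z i) ^ k‖ := by
      have h1 := norm_sub_norm_le (3 / 4 : ℂ) (-(1 / 4 * ((R : ℂ)⁻¹ * z i) ^ k))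
      rw [norm_neg, sub_neg_eq_add, norm_mul] at h1
      have h2 := hsmall k z hRz
      have h3 : ‖(3 / 4 : ℂ)‖ = 3 / 4 := by
        rw [show (3 / 4 : ℂ) = ((3 / 4 : ℝ) : ℂ) by push_cast; ring, Complex.norm_real]
        norm_num
      have h4 : ‖(1 / 4 : ℂ)‖ = 1 / 4 := by
        rw [show (1 / 4 : ℂ) = ((1 / 4 : ℝ) : ℂ) by push_cast; ring, Complex.norm_real]
        norm_num
      rw [h3, h4] at h1
      linarith
    have hne : (3 / 4 : ℂ) + 1 / 4 * ((R : ℂ)⁻¹ * z i) ^ k ≠ 0 := by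
      intro h
      rw [h, norm_zero] at hlow
      linarith
    have hmem : Real.log ‖(3 / 4 : ℂ) + 1 / 4 * ((R : ℂ)⁻¹ * z i) ^ k‖ / k ∈
        extremalValues K z := by
      refine ⟨C (3 / 4 : ℂ) + C ((1 / 4 : ℂ) * ((R : ℂ)⁻¹) ^ k) * X i ^ k, by rw [hdeg]; exact hk,
        fun x hx => ?_, by rw [hval]; exact hne, by rw [hval, hdeg]⟩
      rw [hval]
      refine (norm_add_le _ _).trans ?_
      rw [norm_mul]
      have h2 := hsmall k x (hRK x hx)
      have h3 : ‖(3 / 4 : ℂ)‖ = 3 / 4 := by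
        rw [show (3 / 4 : ℂ) = ((3 / 4 : ℝ) : ℂ) by push_cast; ring, Complex.norm_real]
        norm_num
      have h4 : ‖(1 / 4 : ℂ)‖ = 1 / 4 := by
        rw [show (1 / 4 : ℂ) = ((1 / 4 : ℝ) : ℂ) by push_cast; ring, Complex.norm_real]
        norm_num
      rw [h3, h4]
      linarith
    have h5 := hW hmem
    rw [div_le_iff₀ hk'] at h5
    have h6 : -Real.log 2 ≤ Real.log ‖(3 / 4 : ℂ) + 1 / 4 * ((R : ℂ)⁻¹ * z i) ^ k‖ := by
      rw [← Real.log_inv]
      exact Real.log_le_log (by norm_num) (by norm_num at hlow ⊢; exact hlow)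
    linarith
  by_contra hneg
  push Not at hneg
  obtain ⟨k, hk⟩ := exists_nat_gt (Real.log 2 / (-W))
  have hk1 : 1 ≤ k := by
    rcases Nat.eq_zero_or_pos k with rfl | h
    · exfalso
      have h1 : (0 : ℝ) ≤ Real.log 2 / (-W) := by
        have := Real.log_nonneg (show (1 : ℝ) ≤ 2 by norm_num)
        have : 0 < -W := by linarith
        positivity
      simp only [Nat.cast_zero] at hk
      linarith
    · exact h
  rw [div_lt_iff₀ (by linarith)] at hk
  have := key k hk1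
  linarith

/-- the literal definition of regularity gives the form used in the proof -/
lemma bridge_isLUB {n : ℕ} (hn : 1 ≤ n) {K : Set (Fin n → ℂ)} (hK : IsCompact K)
    {z : Fin n → ℂ} {W : ℝ} (hW : IsLUB (extremalValues K z) W) :
    IsLUB {t : ℝ | ∃ k : ℕ, 1 ≤ k ∧ ∃ p : MvPolynomial (Fin n) ℂ, p.totalDegree ≤ k ∧
        (∀ x ∈ K, ‖eval x p‖ ≤ 1) ∧ t = Real.log ‖eval z p‖ / (k : ℝ)} W := by
  have hW0 : 0 ≤ W := bridge_nonneg hn hK hW.1
  have hne : K.Nonempty := by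
    by_contra hemp
    rw [Set.not_nonempty_iff_eq_empty] at hemp
    subst hemp
    let i : Fin n := ⟨0, hn⟩
    have hev : eval z (C ((Real.exp (W + 1) : ℂ) - z i) + C 1 * X i ^ 1 : MvPolynomial (Fin n) ℂ) =
        (Real.exp (W + 1) : ℂ) := by
      simp
    have hdeg := bridge_totalDegree i le_rfl ((Real.exp (W + 1) : ℂ) - z i) 1 one_ne_zero
    have h1 : Real.log ‖((Real.exp (W + 1) : ℝ) : ℂ)‖ / ((1 : ℕ) : ℝ) ∈
        extremalValues (∅ : Set (Fin n → ℂ)) z :=
      ⟨C ((Real.exp (W + 1) : ℂ) - z i) + C 1 * X i ^ 1, by rw [hdeg],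
        fun x hx => absurd hx (Set.notMem_empty x), by
          rw [hev]; exact_mod_cast (Real.exp_pos _).ne', by rw [hev, hdeg]⟩
    have h2 := hW.1 h1
    rw [Complex.norm_real, Real.norm_of_nonneg (Real.exp_pos _).le, Real.log_exp] at h2
    simp only [Nat.cast_one, div_one] at h2
    linarith
  obtain ⟨x0, hx0⟩ := hne
  constructor
  · rintro t ⟨k, hk, p, hp, hpK, rfl⟩
    have hk' : (0 : ℝ) < k := by exact_mod_cast hk
    rw [div_le_iff₀ hk']
    by_cases hz : eval z p = 0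
    · rw [hz, norm_zero, Real.log_zero]; positivity
    rcases Nat.eq_zero_or_pos p.totalDegree with h0 | hpos
    · rw [totalDegree_eq_zero_iff_eq_C] at h0
      have h1 := hpK x0 hx0
      rw [h0, eval_C] at h1
      rw [h0, eval_C]
      have := Real.log_nonpos (norm_nonneg _) h1
      have h2 : 0 ≤ W * k := by positivity
      linarith
    · have h1 := hW.1 ⟨p, hpos, hpK, hz, rfl⟩
      have h2 : (0 : ℝ) < p.totalDegree := by exact_mod_cast hpos
      rw [div_le_iff₀ h2] at h1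
      have h3 : (p.totalDegree : ℝ) ≤ k := by exact_mod_cast hp
      exact h1.trans (mul_le_mul_of_nonneg_left h3 hW0)
  · intro U hU
    refine hW.2 ?_
    rintro t ⟨p, hp, hpK, hz, rfl⟩
    exact hU ⟨p.totalDegree, hp, p, le_rfl, hpK, rfl⟩

lemma bridge_of_literal {n : ℕ} {K : Set (Fin n → ℂ)} {ν : Measure (Fin n → ℂ)}
    (h : BernsteinMarkov K ν) : BM K ν := by
  obtain ⟨M, hM0, hM, hlim⟩ := h
  intro ε hε
  have hbdd : IsBoundedUnder (· ≤ ·) atTop (fun k : ℕ => M k ^ ((1 : ℝ) / k)) := by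
    by_contra hb
    have hemp : {a : ℝ | ∀ᶠ k : ℕ in atTop, M k ^ ((1 : ℝ) / k) ≤ a} = ∅ := by
      rw [Set.eq_empty_iff_forall_notMem]
      intro a ha
      exact hb ⟨a, by simpa using ha⟩
    rw [limsup_eq, hemp, Real.sInf_empty] at hlim
    exact zero_ne_one hlim
  have hev : ∀ᶠ k : ℕ in atTop, M k ^ ((1 : ℝ) / k) < 1 + ε :=
    eventually_lt_of_limsup_lt (by rw [hlim]; linarith) hbdd
  obtain ⟨k₀, hk₀⟩ := eventually_atTop.mp hev
  set k₁ : ℕ := max k₀ 1 with hk₁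
  set C : ℝ := 1 + ∑ j ∈ Finset.range k₁, M j ^ 2 with hC
  have hC1 : 1 ≤ C := by
    rw [hC]
    have : 0 ≤ ∑ j ∈ Finset.range k₁, M j ^ 2 := Finset.sum_nonneg fun j _ => sq_nonneg _
    linarith
  refine ⟨C, fun k p hp x hx => ?_⟩
  have h1 := hM k p hp x hx
  have hI : 0 ≤ ∫ y, ‖eval y p‖ ^ 2 ∂ν := integral_nonneg fun _ => by positivity
  have h2 : ‖eval x p‖ ^ 2 ≤ M k ^ 2 * ∫ y, ‖eval y p‖ ^ 2 ∂ν := by
    have h3 := pow_le_pow_left₀ (norm_nonneg _) h1 2
    rwa [mul_pow, Real.sq_sqrt hI] at h3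
  refine h2.trans (mul_le_mul_of_nonneg_right ?_ hI)
  have hpow : 1 ≤ (1 + ε) ^ (2 * k) := one_le_pow₀ (by linarith)
  rcases lt_or_ge k k₁ with hk | hk
  · have h4 : M k ^ 2 ≤ ∑ j ∈ Finset.range k₁, M j ^ 2 :=
      Finset.single_le_sum (f := fun j => M j ^ 2) (fun j _ => sq_nonneg _)
        (Finset.mem_range.mpr hk)
    calc M k ^ 2 ≤ C := by rw [hC]; linarith
      _ ≤ C * (1 + ε) ^ (2 * k) := le_mul_of_one_le_right (by linarith) hpow
  · have hk1 : 1 ≤ k := le_trans (le_max_right _ _) hk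
    have hk' : (k : ℝ) ≠ 0 := by exact_mod_cast (by omega : k ≠ 0)
    have h4 := (hk₀ k (le_trans (le_max_left _ _) hk)).le
    have h5 : M k ≤ (1 + ε) ^ k := by
      have h6 := pow_le_pow_left₀ (Real.rpow_nonneg (hM0 k) _) h4 k
      rwa [← Real.rpow_natCast (M k ^ ((1 : ℝ) / k)), ← Real.rpow_mul (hM0 k),
        one_div_mul_cancel hk', Real.rpow_one] at h6
    calc M k ^ 2 ≤ ((1 + ε) ^ k) ^ 2 := pow_le_pow_left₀ (hM0 k) h5 2
      _ = (1 + ε) ^ (2 * k) := by rw [← pow_mul, mul_comm]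
      _ ≤ C * (1 + ε) ^ (2 * k) := le_mul_of_one_le_left (by positivity) hC1

lemma bridge_to_literal {n : ℕ} {K : Set (Fin n → ℂ)} {ν : Measure (Fin n → ℂ)}
    (h : BM K ν) : BernsteinMarkov K ν := by
  -- the set of admissible constants
  set S : ℕ → Set ℝ := fun k => {c | 0 ≤ c ∧ ∀ p : MvPolynomial (Fin n) ℂ, p.totalDegree ≤ k →
    ∀ x ∈ K, ‖eval x p‖ ≤ c * √(∫ y, ‖eval y p‖ ^ 2 ∂ν)} with hS
  have hmemS : ∀ ε : ℝ, 0 < ε → ∃ C : ℝ, 1 ≤ C ∧ ∀ k, C * (1 + ε) ^ k ∈ S k := by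
    intro ε hε
    obtain ⟨C, hC⟩ := h ε hε
    refine ⟨√(max C 1), Real.one_le_sqrt.mpr (le_max_right _ _), fun k => ⟨by positivity, ?_⟩⟩
    intro p hp x hx
    have hI : 0 ≤ ∫ y, ‖eval y p‖ ^ 2 ∂ν := integral_nonneg fun _ => by positivity
    have h1 : ‖eval x p‖ ^ 2 ≤ (√(max C 1) * (1 + ε) ^ k * √(∫ y, ‖eval y p‖ ^ 2 ∂ν)) ^ 2 := by
      rw [mul_pow, mul_pow, Real.sq_sqrt hI, Real.sq_sqrt (by positivity), ← pow_mul, mul_comm k 2]
      refine (hC k p hp x hx).trans ?_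
      gcongr
      exact le_max_left _ _
    exact le_of_sq_le_sq h1 (by positivity)
  have hbdd : ∀ k, BddBelow (S k) := fun k => ⟨0, fun c hc => hc.1⟩
  have hne : ∀ k, (S k).Nonempty := fun k => by
    obtain ⟨C, -, hC⟩ := hmemS 1 one_pos
    exact ⟨_, hC k⟩
  have hinf : ∀ k, sInf (S k) ∈ S k := by
    intro k
    refine ⟨le_csInf (hne k) fun c hc => hc.1, fun p hp x hx => ?_⟩
    rcases (Real.sqrt_nonneg (∫ y, ‖eval y p‖ ^ 2 ∂ν)).eq_or_lt with h0 | h0
    · obtain ⟨c, hc⟩ := hne k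
      have := hc.2 p hp x hx
      rw [← h0, mul_zero] at this ⊢
      exact this
    · rw [← div_le_iff₀ h0]
      refine le_csInf (hne k) fun c hc => ?_
      rw [div_le_iff₀ h0]
      exact hc.2 p hp x hx
  refine ⟨fun k => max (sInf (S k)) 1, fun k => le_trans zero_le_one (le_max_right _ _),
    fun k p hp x hx => ((hinf k).2 p hp x hx).trans
      (mul_le_mul_of_nonneg_right (le_max_left _ _) (Real.sqrt_nonneg _)), ?_⟩
  refine Tendsto.limsup_eq ?_
  refine tendsto_order.mpr ⟨fun a ha => Eventually.of_forall fun k => ?_, fun a ha => ?_⟩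
  · refine lt_of_lt_of_le ha ?_
    exact Real.one_le_rpow (le_max_right _ _) (by positivity)
  · set ε : ℝ := (a - 1) / 2 with hε
    have hεpos : 0 < ε := by rw [hε]; linarith
    obtain ⟨C, hC1, hC⟩ := hmemS ε hεpos
    have hlim : Tendsto (fun k : ℕ => C ^ ((1 : ℝ) / k) * (1 + ε)) atTop (𝓝 (C ^ (0 : ℝ) * (1 + ε))) := by
      refine Tendsto.mul_const _ ?_
      have h0 : Tendsto (fun k : ℕ => (1 : ℝ) / k) atTop (𝓝 0) :=
        tendsto_const_div_atTop_nhds_zero_nat 1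
      exact (Real.continuousAt_const_rpow (by linarith)).tendsto.comp h0
    have hlt : C ^ (0 : ℝ) * (1 + ε) < a := by
      rw [Real.rpow_zero, one_mul, hε]; linarith
    filter_upwards [hlim.eventually (gt_mem_nhds hlt), eventually_gt_atTop 0] with k hk hk0
    refine lt_of_le_of_lt ?_ hk
    have hk' : (k : ℝ) ≠ 0 := by exact_mod_cast hk0.ne'
    have h1 : max (sInf (S k)) 1 ≤ C * (1 + ε) ^ k := by
      refine max_le (csInf_le (hbdd k) (hC k)) ?_
      exact one_le_mul_of_one_le_of_one_le hC1 (one_le_pow₀ (by linarith))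
    calc max (sInf (S k)) 1 ^ ((1 : ℝ) / k) ≤ (C * (1 + ε) ^ k) ^ ((1 : ℝ) / k) :=
          Real.rpow_le_rpow (le_trans zero_le_one (le_max_right _ _)) h1 (by positivity)
      _ = C ^ ((1 : ℝ) / k) * (1 + ε) := by
          rw [Real.mul_rpow (by linarith) (by positivity), ← Real.rpow_natCast (1 + ε) k,
            ← Real.rpow_mul (by linarith), mul_one_div_cancel hk', Real.rpow_one]

lemma bridge_BM {n : ℕ} {K : Set (Fin n → ℂ)} {ν : Measure (Fin n → ℂ)} :
    BernsteinMarkov K ν ↔ BM K ν := ⟨bridge_of_literal, bridge_to_literal⟩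

lemma bridge_card (n k : ℕ) : NN n k = (n + k).choose k := by
  rw [NN_eq]
  have h := sum_wt (0 : Option (Fin n) →₀ ℕ) k
  have h1 : ∀ β : Option (Fin n) →₀ ℕ, wt 0 β = 1 := by
    intro β
    simp [wt]
  simp only [h1, Finset.sum_const, smul_eq_mul, mul_one, Finsupp.coe_zero, Pi.zero_apply,
    mul_zero, zero_add, Fintype.card_option, Fintype.card_fin] at h
  rw [PowerSeries.mk_one_pow_eq_mk_choose_add, PowerSeries.coeff_mk] at h
  rw [← Nat.choose_symm_add]
  exact_mod_cast h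

lemma bridge_ell_one (n : ℕ) : ell n 1 = n := by
  classical
  have h0 : ∀ b : Idx n 1, ((∑ i, ex b i : ℕ) : ℝ) = 1 - if ex b = 0 then 1 else 0 := by
    intro b
    have h1 := ex_sum_le b
    split_ifs with h
    · simp [h]
    · have h2 : ∑ i, ex b i ≠ 0 := by
        intro h3
        apply h
        ext i
        rw [Finset.sum_eq_zero_iff] at h3
        exact h3 i (Finset.mem_univ i)
      have h3 : ∑ i, ex b i = 1 := by omega
      rw [h3]; simp
  rw [ell_eq_sum_ex, Finset.sum_congr rfl fun b _ => h0 b, Finset.sum_sub_distrib]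
  have h1 : ∑ b : Idx n 1, (if ex b = 0 then (1 : ℝ) else 0) = 1 := by
    rw [Finset.sum_eq_single (ofEx 0 (by simp))]
    · simp [ex_ofEx]
    · intro b _ hb
      rw [if_neg]
      intro h
      apply hb
      apply ex_injective
      rw [h, ex_ofEx]
    · intro h
      exact absurd (Finset.mem_univ _) h
  rw [h1]
  have h2 : ∑ _b : Idx n 1, (1 : ℝ) = n + 1 := by
    have h3 := bridge_card n 1
    unfold NN at h3
    rw [Finset.sum_const, nsmul_eq_mul, mul_one, Finset.card_univ, h3]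
    simp
  rw [h2]; ring

lemma bridge_ell (n k : ℕ) : ell n k = degreeSum n k := by
  rw [ell_eq, Lc, bridge_ell_one, bridge_card, bridge_card, degreeSum]
  simp only [Nat.choose_one_right]
  push_cast
  ring

end aux

/-- **Bernstein-Markov measures and Vandermonde integrals.** Let `n ≥ 1` and let `K` be a regular
compact subset of `ℂⁿ`. Then the limit `δ(K)` defining the transfinite diameter exists, and a
finite Borel measure `ν` on `K` has the Bernstein-Markov property if and only if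
`Z_k(ν) ^ (1 / (2 l_k))` tends to `δ(K)`. -/
theorem result (n : ℕ) (hn : 1 ≤ n) (K : Set (Fin n → ℂ)) (hK : IsCompact K)
    (hreg : IsRegular K) :
    ∃ δ : ℝ, IsTransfiniteDiameter K δ ∧
      ∀ (ν : Measure (Fin n → ℂ)) [IsFiniteMeasure ν], ν Kᶜ = 0 →
        (BernsteinMarkov K ν ↔
          Tendsto (fun k : ℕ => vandermondeIntegral ν k ^ (1 / (2 * degreeSum n k))) atTop
            (𝓝 δ)) := by
  obtain ⟨V, hVc, hV⟩ := hreg
  have hR := La9f24d.Reg.of_isLUB hK hVc fun z => bridge_isLUB hn hK (hV z)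
  obtain ⟨Λ, hΛ⟩ := hR.tendsto_log_VV hn
  have hVV := hR.tendsto_VV hΛ
  refine ⟨Real.exp Λ, ⟨fun k => La9f24d.VV K k, fun k => ?_, ?_⟩, fun ν _ hν => ?_⟩
  · obtain ⟨z, hz, hzV⟩ := hR.exists_fekete k
    refine ⟨⟨z, hz, hzV.symm⟩, ?_⟩
    rintro s ⟨x, hx, rfl⟩
    exact hR.norm_dt_le_VV x hx
  · simpa only [bridge_ell] using hVV
  · rw [bridge_BM, hR.main hn ν hν]
    simp only [bridge_ell] at hVV ⊢
    constructor
    · rintro ⟨d, hd1, hd2⟩
      have hd : d = Real.exp Λ := tendsto_nhds_unique hd1 hVV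
      rw [← hd]
      exact hd2
    · intro h
      exact ⟨_, hVV, h⟩

end Pool.Agent.Results.MP_a9f24d_an.VandermondeIntegrals
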